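import Pool.Agent.H862R3.Monster.Defs

set_option autoImplicit false

open MeasureTheory Filter

open scoped ENNReal

universe u

namespace Pool.Agent.H862R3.Monster

variable {F : Type} [Group F] {S : LabelSet F}

/-- The set of labellings all of whose closed words lie in `H` and in the kernel of `ψ`. -/
def Bset {V : Type} (Ω : SimpleGraph V) (H : Subgroup F) {G : Type u} [Group G] (ψ : H →* G) :
    Set (Labelling S Ω) :=
  {α | ∀ (v : V) (p : Ω.Walk v v), ∃ h : word α p ∈ H, ψ ⟨word α p, h⟩ = 1}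

open Classical in
/-- Change the label of the oriented edge `e` to `g`. -/
noncomputable def upd {V : Type} {Ω : SimpleGraph V} (α : Labelling S Ω) (e : Ω.Dart) (g : F)
    (hg : g ∈ S.carrier) : Labelling S Ω :=
  ⟨fun e' => if e' = e then g else if e' = e.symm then g⁻¹ else α.1 e', by
    constructor
    · intro e'
      dsimp only
      split_ifs
      · exact hg
      · exact S.inv_mem g hg
      · exact α.2.1 e'
    · intro e'
      have hne : e.symm ≠ e := e.symm_ne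
      have hne' : e ≠ e.symm := fun h => hne h.symm
      dsimp only
      by_cases h1 : e' = e
      · subst h1
        simp [hne]
      · by_cases h2 : e' = e.symm
        · subst h2
          simp [hne]
        · have h3 : e'.symm ≠ e := fun h => h2 (by rw [← h, SimpleGraph.Dart.symm_symm])
          have h4 : e'.symm ≠ e.symm := fun h => h1 (by
            have := congrArg SimpleGraph.Dart.symm h
            simpa using this)
          rw [if_neg h3, if_neg h4, if_neg h1, if_neg h2]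
          exact α.2.2 e'⟩

lemma upd_self {V : Type} {Ω : SimpleGraph V} (α : Labelling S Ω) (e : Ω.Dart) (g : F)
    (hg : g ∈ S.carrier) : (upd α e g hg).1 e = g := by
  classical
  simp [upd]

lemma upd_of_ne {V : Type} {Ω : SimpleGraph V} (α : Labelling S Ω) (e : Ω.Dart) (g : F)
    (hg : g ∈ S.carrier) (e' : Ω.Dart) (h : e'.edge ≠ e.edge) :
    (upd α e g hg).1 e' = α.1 e' := by
  classical
  have h1 : e' ≠ e := fun h' => h (by rw [h'])
  have h2 : e' ≠ e.symm := fun h' => h (by rw [h', SimpleGraph.Dart.edge_symm])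
  simp [upd, h1, h2]

lemma word_upd {V : Type} {Ω : SimpleGraph V} (α : Labelling S Ω) (e : Ω.Dart) (g : F)
    (hg : g ∈ S.carrier) {u v : V} (p : Ω.Walk u v) (h : e.edge ∉ p.edges) :
    word (upd α e g hg) p = word α p := by
  unfold word
  congr 1
  apply List.map_congr_left
  intro d hd
  apply upd_of_ne
  intro h'
  apply h
  rw [← h']
  exact List.mem_map_of_mem hd

/-- The key counting estimate: if `Ω` has a cycle and `ψ` does not kill all the quotients
`s' s⁻¹` of labels, at most a proportion `|S| / (|S| + 1)` of the labellings has all closed words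
in the kernel of `ψ`. -/
lemma ncard_Bset_le {V : Type} [Finite V] (Ω : SimpleGraph V) (hΩ : ¬ Ω.IsAcyclic)
    (H : Subgroup F) {G : Type u} [Group G] (ψ : H →* G)
    (hHS : ∀ s ∈ S.carrier, ∀ s' ∈ S.carrier, s' * s⁻¹ ∈ H)
    (s₀ s₁ : F) (h₀ : s₀ ∈ S.carrier) (h₁ : s₁ ∈ S.carrier)
    (hψ : ψ ⟨s₁ * s₀⁻¹, hHS _ h₀ _ h₁⟩ ≠ 1) :
    (Bset (S := S) Ω H ψ).ncard ≤ (Bset (S := S) Ω H ψ)ᶜ.ncard * S.carrier.ncard := by
  classical
  unfold SimpleGraph.IsAcyclic at hΩ
  push Not at hΩ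
  obtain ⟨v, c, hc⟩ := hΩ
  cases c with
  | nil => exact absurd hc (by simp)
  | @cons _ w _ hadj p =>
    rw [SimpleGraph.Walk.cons_isCycle_iff] at hc
    obtain ⟨-, hedge⟩ := hc
    set e : Ω.Dart := ⟨(v, w), hadj⟩ with he
    have hedge' : e.edge ∉ p.edges := hedge
    -- for every label choose a different one
    have hchoose : ∀ α : Labelling S Ω, ∃ g ∈ S.carrier, ∀ h : g * (α.1 e)⁻¹ ∈ H,
        ψ ⟨g * (α.1 e)⁻¹, h⟩ ≠ 1 := by
      intro α
      by_contra hcon
      push Not at hcon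
      obtain ⟨k0, e0⟩ := hcon s₀ h₀
      obtain ⟨k1, e1⟩ := hcon s₁ h₁
      apply hψ
      have : (⟨s₁ * s₀⁻¹, hHS _ h₀ _ h₁⟩ : H)
          = ⟨s₁ * (α.1 e)⁻¹, k1⟩ * (⟨s₀ * (α.1 e)⁻¹, k0⟩ : H)⁻¹ := by
        apply Subtype.ext
        simp [mul_assoc]
      rw [this, map_mul, map_inv, e0, e1]
      simp
    choose g hgS hg using hchoose
    let f : Labelling S Ω → Labelling S Ω × F := fun α => (upd α e (g α) (hgS α), α.1 e)
    have hmaps : ∀ α ∈ Bset (S := S) Ω H ψ, f α ∈ ((Bset (S := S) Ω H ψ)ᶜ ×ˢ S.carrier) := by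
      intro α hα
      refine ⟨?_, α.2.1 e⟩
      intro hcon
      obtain ⟨m1, e1⟩ := hα v (SimpleGraph.Walk.cons hadj p)
      obtain ⟨m2, e2⟩ := hcon v (SimpleGraph.Walk.cons hadj p)
      have w1 : word α (SimpleGraph.Walk.cons hadj p) = α.1 e * word α p := by
        simp [word, he]
      have w2 : word (upd α e (g α) (hgS α)) (SimpleGraph.Walk.cons hadj p)
          = g α * word α p := by
        have : word (upd α e (g α) (hgS α)) (SimpleGraph.Walk.cons hadj p)
          = (upd α e (g α) (hgS α)).1 e * word (upd α e (g α) (hgS α)) p := by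
          simp [word, he]
        rw [this, upd_self, word_upd _ _ _ _ _ hedge']
      have m3 : g α * (α.1 e)⁻¹ ∈ H := hHS _ (α.2.1 e) _ (hgS α)
      apply hg α m3
      have m1' : α.1 e * word α p ∈ H := w1 ▸ m1
      have m2' : g α * word α p ∈ H := by
        have := m2
        change word (upd α e (g α) (hgS α)) (SimpleGraph.Walk.cons hadj p) ∈ H at this
        rwa [w2] at this
      have e1' : ψ ⟨α.1 e * word α p, m1'⟩ = 1 := by
        have hh : (⟨α.1 e * word α p, m1'⟩ : H) = ⟨_, m1⟩ := Subtype.ext w1.symm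
        rw [hh]; exact e1
      have e2' : ψ ⟨g α * word α p, m2'⟩ = 1 := by
        have hh : (⟨g α * word α p, m2'⟩ : H) = ⟨_, m2⟩ := Subtype.ext w2.symm
        rw [hh]; exact e2
      have : (⟨g α * (α.1 e)⁻¹, m3⟩ : H)
          = ⟨g α * word α p, m2'⟩ * (⟨α.1 e * word α p, m1'⟩ : H)⁻¹ := by
        apply Subtype.ext
        simp [mul_assoc]
      rw [this, map_mul, map_inv, e1', e2']
      simp
    have hinj : Set.InjOn f (Bset (S := S) Ω H ψ) := by
      intro α _ β _ hab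
      have h1 : upd α e (g α) (hgS α) = upd β e (g β) (hgS β) := congrArg Prod.fst hab
      have h2 : α.1 e = β.1 e := congrArg Prod.snd hab
      apply Subtype.ext
      funext e'
      by_cases hee : e'.edge = e.edge
      · rcases (SimpleGraph.dart_edge_eq_iff e' e).mp hee with h | h
        · rw [h, h2]
        · rw [h, α.2.2, β.2.2, h2]
      · rw [← upd_of_ne α e (g α) (hgS α) e' hee, ← upd_of_ne β e (g β) (hgS β) e' hee, h1]
    have hfin : ((Bset (S := S) Ω H ψ)ᶜ ×ˢ S.carrier).Finite :=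
      (Set.toFinite _).prod S.finite
    have := Set.ncard_le_ncard_of_injOn f hmaps hinj hfin
    rwa [Set.ncard_prod] at this

/-- The constant `|S| / (|S| + 1)`. -/
noncomputable def qq (S : LabelSet F) : ℝ≥0∞ := (S.carrier.ncard : ℝ≥0∞) / (S.carrier.ncard + 1)

lemma qq_lt_one : qq S < 1 := by
  unfold qq
  rw [ENNReal.div_lt_iff (Or.inl (by simp)) (Or.inl (by simp)), one_mul]
  exact_mod_cast Nat.lt_succ_self _

lemma unif_Bset_le {V : Type} [Finite V] (Ω : SimpleGraph V) (hΩ : ¬ Ω.IsAcyclic)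
    (H : Subgroup F) {G : Type u} [Group G] (ψ : H →* G)
    (hHS : ∀ s ∈ S.carrier, ∀ s' ∈ S.carrier, s' * s⁻¹ ∈ H)
    (s₀ s₁ : F) (h₀ : s₀ ∈ S.carrier) (h₁ : s₁ ∈ S.carrier)
    (hψ : ψ ⟨s₁ * s₀⁻¹, hHS _ h₀ _ h₁⟩ ≠ 1) :
    unif S Ω (Bset (S := S) Ω H ψ) ≤ qq S := by
  classical
  have hcard := ncard_Bset_le Ω hΩ H ψ hHS s₀ s₁ h₀ h₁ hψ
  have hadd := Set.ncard_add_ncard_compl (Bset (S := S) Ω H ψ)
  let _ : Fintype (Labelling S Ω) := Fintype.ofFinite _
  set B := Bset (S := S) Ω H ψ with hB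
  have hb : (B.ncard) * (S.carrier.ncard + 1) ≤ S.carrier.ncard * Nat.card (Labelling S Ω) := by
    rw [← hadd]
    nlinarith
  have h1 : unif S Ω B = (B.ncard : ℝ≥0∞) / (Nat.card (Labelling S Ω) : ℝ≥0∞) := by
    unfold unif
    rw [ProbabilityTheory.uniformOn_univ, Nat.card_eq_fintype_card]
    congr 1
    rw [Measure.count_apply_finite' (Set.toFinite B) (by trivial)]
    rw [Set.ncard_eq_toFinset_card B (Set.toFinite B)]
  have hpos : (Nat.card (Labelling S Ω) : ℝ≥0∞) ≠ 0 := by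
    simp only [ne_eq, Nat.cast_eq_zero]
    exact Nat.card_pos.ne'
  rw [h1, ENNReal.div_le_iff hpos (by simp)]
  have hs : ((S.carrier.ncard : ℝ≥0∞) + 1) ≠ 0 := by simp
  have hs' : ((S.carrier.ncard : ℝ≥0∞) + 1) ≠ ⊤ := by simp
  have : (B.ncard : ℝ≥0∞) ≤ (S.carrier.ncard : ℝ≥0∞) * Nat.card (Labelling S Ω)
      / ((S.carrier.ncard : ℝ≥0∞) + 1) := by
    rw [ENNReal.le_div_iff_mul_le (Or.inl hs) (Or.inl hs')]
    exact_mod_cast hb
  refine this.trans (le_of_eq ?_)
  unfold qq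
  rw [ENNReal.div_eq_inv_mul, ENNReal.div_eq_inv_mul, mul_assoc]

variable {V : ℕ → Type} [∀ n, Finite (V n)] {Ω : ∀ n, SimpleGraph (V n)}

/-- The event that all closed words lie in `H` and in the kernel of `ψ` has probability `0`. -/
lemma null_event (hΩ : {n | ¬ (Ω n).IsAcyclic}.Infinite)
    (H : Subgroup F) {G : Type u} [Group G] (ψ : H →* G)
    (hHS : ∀ s ∈ S.carrier, ∀ s' ∈ S.carrier, s' * s⁻¹ ∈ H)
    (s₀ s₁ : F) (h₀ : s₀ ∈ S.carrier) (h₁ : s₁ ∈ S.carrier)
    (hψ : ψ ⟨s₁ * s₀⁻¹, hHS _ h₀ _ h₁⟩ ≠ 1) :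
    labMeasure S Ω {α | ∀ r ∈ relators α, ∃ h : r ∈ H, ψ ⟨r, h⟩ = 1} = 0 := by
  have hle : ∀ m : ℕ, labMeasure S Ω {α | ∀ r ∈ relators α, ∃ h : r ∈ H, ψ ⟨r, h⟩ = 1}
      ≤ qq S ^ m := by
    intro m
    obtain ⟨I, hI, hIm⟩ := hΩ.exists_subset_card_eq m
    have hsub : {α : Labellings S Ω | ∀ r ∈ relators α, ∃ h : r ∈ H, ψ ⟨r, h⟩ = 1}
        ⊆ Set.pi (I : Set ℕ) (fun n => Bset (S := S) (Ω n) H ψ) := by
      intro α hα n _ v p
      exact hα _ ⟨n, v, p, rfl⟩
    refine (measure_mono hsub).trans ?_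
    unfold labMeasure
    rw [Measure.infinitePi_pi _ (fun n _ => MeasurableSpace.measurableSet_top)]
    calc ∏ n ∈ I, unif S (Ω n) (Bset (S := S) (Ω n) H ψ)
        ≤ ∏ _n ∈ I, qq S := by
          apply Finset.prod_le_prod'
          intro n hn
          exact unif_Bset_le (Ω n) (hI hn) H ψ hHS s₀ s₁ h₀ h₁ hψ
      _ = qq S ^ m := by rw [Finset.prod_const, hIm]
  have ht := ENNReal.tendsto_pow_atTop_nhds_zero_of_lt_one (qq_lt_one (S := S))
  exact le_antisymm (ge_of_tendsto' ht hle) zero_le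

/-- For almost every labelling, every homomorphism from the fixed subgroup `H` to the countable
group `G` that kills all closed words kills all quotients of labels. -/
theorem ae_hom (hΩ : {n | ¬ (Ω n).IsAcyclic}.Infinite)
    (H : Subgroup F) (G : Type u) [Group G] [Countable (H →* G)]
    (hHS : ∀ s ∈ S.carrier, ∀ s' ∈ S.carrier, s' * s⁻¹ ∈ H) :
    ∀ᵐ α ∂(labMeasure S Ω), ∀ ψ : H →* G, (∀ r ∈ relators α, ∃ h : r ∈ H, ψ ⟨r, h⟩ = 1) →
      ∀ s s' : F, ∀ (hs : s ∈ S.carrier) (hs' : s' ∈ S.carrier),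
        ψ ⟨s' * s⁻¹, hHS s hs s' hs'⟩ = 1 := by
  rw [ae_all_iff]
  intro ψ
  by_cases hψ : ∀ s s' : F, ∀ (hs : s ∈ S.carrier) (hs' : s' ∈ S.carrier),
      ψ ⟨s' * s⁻¹, hHS s hs s' hs'⟩ = 1
  · exact Eventually.of_forall fun α _ => hψ
  · push Not at hψ
    obtain ⟨s₀, s₁, h₀, h₁, hne⟩ := hψ
    have := null_event (S := S) hΩ H ψ hHS s₀ s₁ h₀ h₁ hne
    rw [ae_iff]
    refine measure_mono_null ?_ this
    intro α hα
    simp only [Set.mem_ofPred_eq, Classical.not_imp] at hα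
    exact hα.1

end Pool.Agent.H862R3.Monster
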