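import Mathlib

/-!
# Random monster groups: definitions

Finite graphs `Ω n` (simple graphs), symmetric labellings of their oriented edges with values in a
finite symmetric subset `S` of a group `F`, the product of the uniform distributions, and the
random group `Γ_α = F / ⟨⟨words read along closed paths⟩⟩`.
-/

set_option autoImplicit false

open MeasureTheory Filter

universe u

namespace Pool.Agent.H862R3.Monster

/-- A finite nonempty subset of the group `F` closed under inverses (the set of labels). -/
structure LabelSet (F : Type) [Group F] where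
  /-- the labels -/
  carrier : Set F
  finite : carrier.Finite
  nonempty : carrier.Nonempty
  inv_mem : ∀ s ∈ carrier, s⁻¹ ∈ carrier

/-- The symmetric generating set `T = {x_1, x_1⁻¹, …, x_k, x_k⁻¹}` of the free group of rank `k`. -/
def T (k : ℕ) : Set (FreeGroup (Fin k)) :=
  {g | ∃ i : Fin k, g = FreeGroup.of i ∨ g = (FreeGroup.of i)⁻¹}

/-- `T^j`: the set of products of `j` elements of `T`. -/
def TpowSet (k j : ℕ) : Set (FreeGroup (Fin k)) :=
  {g | ∃ l : List (FreeGroup (Fin k)), l.length = j ∧ (∀ t ∈ l, t ∈ T k) ∧ l.prod = g}

/-- The set of reduced words of length `j` in the free group of rank `k`. -/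
def redSet (k j : ℕ) : Set (FreeGroup (Fin k)) :=
  {g | g.toWord.length = j}

/-- A symmetric labelling of the graph `Ω` with labels in `S`: a map `α` from the oriented edges
(darts) of `Ω` to `S` with `α (e⁻¹) = (α e)⁻¹`. -/
def Labelling {F : Type} [Group F] (S : LabelSet F) {V : Type} (Ω : SimpleGraph V) : Type :=
  {α : Ω.Dart → F // (∀ e, α e ∈ S.carrier) ∧ ∀ e : Ω.Dart, α e.symm = (α e)⁻¹}

/-- The word (element of `F`) read along a path. -/
def word {F : Type} [Group F] {S : LabelSet F} {V : Type} {Ω : SimpleGraph V}
    (α : Labelling S Ω) {u v : V} (p : Ω.Walk u v) : F :=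
  (p.darts.map α.1).prod

/-- A symmetric labelling of the disjoint union of the graphs `Ω n`. -/
abbrev Labellings {F : Type} [Group F] (S : LabelSet F) {V : ℕ → Type}
    (Ω : ∀ n, SimpleGraph (V n)) : Type :=
  ∀ n, Labelling S (Ω n)

/-- The set of all words read along closed paths in the disjoint union of the `Ω n`. -/
def relators {F : Type} [Group F] {S : LabelSet F} {V : ℕ → Type} {Ω : ∀ n, SimpleGraph (V n)}
    (α : Labellings S Ω) : Set F :=
  {r | ∃ (n : ℕ) (v : V n) (p : (Ω n).Walk v v), r = word (α n) p}

/-- The random group `Γ_α`: the quotient of `F` by the normal closure of all words read along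
closed paths. -/
abbrev Gam {F : Type} [Group F] {S : LabelSet F} {V : ℕ → Type} {Ω : ∀ n, SimpleGraph (V n)}
    (α : Labellings S Ω) : Type :=
  F ⧸ Subgroup.normalClosure (relators α)

section Measure

variable {F : Type} [Group F] (S : LabelSet F)

instance {V : Type} (Ω : SimpleGraph V) : MeasurableSpace (Labelling S Ω) := ⊤

instance {V : Type} (Ω : SimpleGraph V) : DiscreteMeasurableSpace (Labelling S Ω) :=
  ⟨fun _ => trivial⟩

instance {V : Type} [Finite V] (Ω : SimpleGraph V) : Finite (Labelling S Ω) := by
  classical
  have : Finite S.carrier := S.finite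
  let _ : Fintype V := Fintype.ofFinite V
  have : Finite Ω.Dart := inferInstance
  let f : Labelling S Ω → (Ω.Dart → S.carrier) := fun α e => ⟨α.1 e, α.2.1 e⟩
  refine Finite.of_injective f ?_
  intro α β h
  apply Subtype.ext
  funext e
  have := congrFun h e
  exact congrArg Subtype.val this

/-- Choose an orientation of every edge to see that labellings exist. -/
instance {V : Type} (Ω : SimpleGraph V) : Nonempty (Labelling S Ω) := by
  classical
  obtain ⟨s, hs⟩ := S.nonempty
  let _ : LinearOrder V := IsWellOrder.linearOrder WellOrderingRel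
  refine ⟨⟨fun e => if e.fst < e.snd then s else s⁻¹, ?_, ?_⟩⟩
  · intro e
    dsimp only
    split_ifs
    · exact hs
    · exact S.inv_mem s hs
  · intro e
    have hne : e.fst ≠ e.snd := e.adj.ne
    rcases lt_or_gt_of_ne hne with h | h
    · have h' : ¬ (e.snd < e.fst) := not_lt.mpr h.le
      simp [SimpleGraph.Dart.symm, h, h']
    · have h' : ¬ (e.fst < e.snd) := not_lt.mpr h.le
      simp [SimpleGraph.Dart.symm, h, h']

/-- The uniform probability distribution on the finite set of symmetric labellings of `Ω`. -/
noncomputable def unif {V : Type} [Finite V] (Ω : SimpleGraph V) : Measure (Labelling S Ω) :=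
  ProbabilityTheory.uniformOn Set.univ

instance {V : Type} [Finite V] (Ω : SimpleGraph V) : IsProbabilityMeasure (unif S Ω) :=
  ProbabilityTheory.isProbabilityMeasure_uniformOn Set.finite_univ Set.univ_nonempty

/-- The product of the uniform distributions on the finite sets of labellings of the `Ω n`. -/
noncomputable def labMeasure {V : ℕ → Type} [∀ n, Finite (V n)] (Ω : ∀ n, SimpleGraph (V n)) :
    Measure (Labellings S Ω) :=
  Measure.infinitePi fun n => unif S (Ω n)

end Measure

section Rigid

variable {F : Type} [Group F] (S : LabelSet F)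
  {V : ℕ → Type} [∀ n, Finite (V n)] (Ω : ∀ n, SimpleGraph (V n)) (G : Type u) [Group G]

/-- Super-rigidity, first form: for every choice of homomorphisms `φ_α : Γ_α → G`, the image of
`φ_α` is finite for almost every labelling `α`. -/
def SuperRigidFamily : Prop :=
  ∀ φ : (∀ α : Labellings S Ω, Gam α →* G),
    ∀ᵐ α ∂(labMeasure S Ω), (Set.range (φ α)).Finite

/-- Super-rigidity, second form: for almost every labelling `α`, every homomorphism `Γ_α → G` has
finite image. -/
def SuperRigid : Prop :=
  ∀ᵐ α ∂(labMeasure S Ω), ∀ φ : Gam α →* G, (Set.range φ).Finite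

/-- Hereditary super-rigidity: for almost every labelling `α`, for every subgroup `Γ'` of finite
index in `Γ_α`, every homomorphism `Γ' → G` has finite image. -/
def HereditarySuperRigid : Prop :=
  ∀ᵐ α ∂(labMeasure S Ω), ∀ Γ' : Subgroup (Gam α), Γ'.FiniteIndex →
    ∀ φ : Γ' →* G, (Set.range φ).Finite

end Rigid

/-- The Cheeger constant of the finite graph `G` is at least `c`: for every nonempty set `A` of at
most half of the vertices, at least `c * |A|` edges lead from `A` to its complement. -/
def CheegerAtLeast {V : Type} [Finite V] (G : SimpleGraph V) (c : ℝ) : Prop :=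
  ∀ A : Set V, A.Nonempty → 2 * A.ncard ≤ Nat.card V →
    c * A.ncard ≤ {e : G.Dart | e.fst ∈ A ∧ e.snd ∉ A}.ncard

/-- The standing assumptions on the sequence of finite graphs, degrees excepted: the graphs are
connected, their numbers of vertices tend to infinity, their Cheeger constants are bounded below
by a positive constant (expander), their girths tend to infinity, and the diameter is at most a
constant multiple of the girth (`dg`-bounded). -/
structure Standing {V : ℕ → Type} [∀ n, Finite (V n)] (Ω : ∀ n, SimpleGraph (V n)) : Prop where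
  connected : ∀ n, (Ω n).Connected
  card : Tendsto (fun n => Nat.card (V n)) atTop atTop
  cheeger : ∃ c : ℝ, 0 < c ∧ ∀ n, CheegerAtLeast (Ω n) c
  girth : ∀ M : ℕ, ∀ᶠ n in atTop, (M : ℕ∞) ≤ (Ω n).egirth
  dg : ∃ D : ℕ, 0 < D ∧ ∀ n, (Ω n).ediam ≤ (D : ℕ∞) * (Ω n).egirth

end Pool.Agent.H862R3.Monster
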