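import Pool.Agent.H862R3.Monster.Defs

set_option autoImplicit false

open Filter SimpleGraph

namespace Pool.Agent.H862R3.Monster

variable {V : Type}

/-- For adjacent `v, w`: the vertices reachable from `w` without the edge `vw`. -/
def Br (G : SimpleGraph V) (v w : V) : Set V := {x | ∃ q : G.Walk w x, s(v, w) ∉ q.edges}

lemma mem_Br_self (G : SimpleGraph V) (v w : V) : w ∈ Br G v w :=
  ⟨Walk.nil, by simp⟩

lemma not_mem_Br {G : SimpleGraph V} (hG : G.IsAcyclic) {v w : V} (h : G.Adj v w) :
    v ∉ Br G v w := by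
  classical
  rintro ⟨q, hq⟩
  have hp : q.bypass.IsPath := q.bypass_isPath
  have he : s(v, w) ∉ q.bypass.edges := fun h' => hq (q.edges_bypass_subset_edges h')
  exact hG (Walk.cons h q.bypass) ((Walk.cons_isCycle_iff _ _).mpr ⟨hp, he⟩)

lemma not_mem_support_of_Br {G : SimpleGraph V} (hG : G.IsAcyclic) {v w x : V} (h : G.Adj v w)
    (q : G.Walk w x) (hq : s(v, w) ∉ q.edges) : v ∉ q.support := by
  classical
  intro hv
  apply not_mem_Br hG h
  exact ⟨q.takeUntil v hv, fun h' => hq (q.edges_takeUntil_subset_edges hv h')⟩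

lemma Br_ssubset {G : SimpleGraph V} (hG : G.IsAcyclic) {u v w : V} (h : G.Adj v w)
    (hwu : w ≠ u) : Br G v w ⊂ Br G u v := by
  refine ⟨?_, ?_⟩
  · rintro x ⟨q, hq⟩
    have hv := not_mem_support_of_Br hG h q hq
    refine ⟨Walk.cons h q, ?_⟩
    rw [Walk.edges_cons, List.mem_cons, not_or]
    constructor
    · intro hE
      rw [Sym2.eq_iff] at hE
      rcases hE with ⟨h1, h2⟩ | ⟨h1, _⟩
      · exact h.ne h2
      · exact hwu h1.symm
    · intro hE
      exact hv (q.snd_mem_support_of_mem_edges hE)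
  · intro hsub
    exact not_mem_Br hG h (hsub (mem_Br_self G u v))

lemma Br_disjoint {G : SimpleGraph V} (hG : G.IsAcyclic) {u v : V} (h : G.Adj u v) {x : V}
    (h1 : x ∈ Br G v u) (h2 : x ∈ Br G u v) : False := by
  obtain ⟨q, hq⟩ := h1
  obtain ⟨q', hq'⟩ := h2
  apply not_mem_Br hG h
  refine ⟨q'.append q.reverse, ?_⟩
  rw [Walk.edges_append, List.mem_append, not_or]
  refine ⟨hq', ?_⟩
  rw [Walk.edges_reverse, List.mem_reverse, Sym2.eq_swap]
  exact hq

lemma cover_Br {G : SimpleGraph V} (hc : G.Connected) (v : V) :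
    (Set.univ : Set V) ⊆ {v} ∪ ⋃ w ∈ G.neighborSet v, Br G v w := by
  classical
  intro x _
  by_cases hx : x = v
  · left; exact hx
  · right
    obtain ⟨p, hp⟩ := (hc.preconnected v x).exists_isPath
    cases p with
    | nil => exact absurd rfl hx
    | @cons _ w _ h q =>
      rw [Walk.cons_isPath_iff] at hp
      rw [Set.mem_iUnion₂]
      refine ⟨w, h, q, ?_⟩
      intro hE
      exact hp.2 (q.fst_mem_support_of_mem_edges hE)

lemma boundary_Br {G : SimpleGraph V} (hG : G.IsAcyclic) {v w : V} (h : G.Adj v w)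
    (e : G.Dart) (h1 : e.fst ∈ Br G v w) (h2 : e.snd ∉ Br G v w) :
    e = ⟨(w, v), h.symm⟩ := by
  have hE : e.edge = s(v, w) := by
    by_contra hne
    apply h2
    obtain ⟨q, hq⟩ := h1
    refine ⟨q.concat e.adj, ?_⟩
    rw [Walk.edges_concat, List.concat_eq_append, List.mem_append, not_or]
    refine ⟨hq, ?_⟩
    simp only [List.mem_singleton]
    intro h'
    exact hne h'.symm
  have : e.edge = (⟨(w, v), h.symm⟩ : G.Dart).edge := by
    rw [hE]; exact Sym2.eq_swap
  rcases (dart_edge_eq_iff _ _).mp this with h' | h'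
  · exact h'
  · exfalso
    apply not_mem_Br hG h
    have : e.fst = v := by rw [h']; rfl
    rwa [this] at h1

lemma Br_small [Finite V] {G : SimpleGraph V} (hG : G.IsAcyclic) {c : ℝ}
    (hc : CheegerAtLeast G c) {v w : V} (h : G.Adj v w) :
    (2 * (Br G v w).ncard ≤ Nat.card V → c * (Br G v w).ncard ≤ 1) ∧
    (2 * (Br G v w)ᶜ.ncard ≤ Nat.card V → c * (Br G v w)ᶜ.ncard ≤ 1) := by
  constructor
  · intro h2
    refine (hc _ ⟨w, mem_Br_self G v w⟩ h2).trans ?_
    have : {e : G.Dart | e.fst ∈ Br G v w ∧ e.snd ∉ Br G v w} ⊆ {⟨(w, v), h.symm⟩} := by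
      rintro e ⟨h1, h2⟩
      exact boundary_Br hG h e h1 h2
    have := Set.ncard_le_ncard this (Set.finite_singleton _)
    rw [Set.ncard_singleton] at this
    exact_mod_cast this
  · intro h2
    refine (hc _ ⟨v, not_mem_Br hG h⟩ h2).trans ?_
    have : {e : G.Dart | e.fst ∈ (Br G v w)ᶜ ∧ e.snd ∉ (Br G v w)ᶜ} ⊆ {⟨(v, w), h⟩} := by
      rintro e ⟨h1, h2⟩
      have h2' : e.snd ∈ Br G v w := by
        by_contra h3; exact h2 h3
      have := boundary_Br hG h e.symm h2' h1
      have h5 : e = (⟨(w, v), h.symm⟩ : G.Dart).symm := by rw [← this, Dart.symm_symm]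
      exact h5
    have := Set.ncard_le_ncard this (Set.finite_singleton _)
    rw [Set.ncard_singleton] at this
    exact_mod_cast this

lemma card_le_of_all_small [Finite V] {G : SimpleGraph V} (hconn : G.Connected) {c : ℝ}
    (hc0 : 0 < c) {d : ℕ} (hd : ∀ v, (G.neighborSet v).ncard ≤ d) (v : V)
    (hs : ∀ w, G.Adj v w → c * (Br G v w).ncard ≤ 1) :
    (Nat.card V : ℝ) ≤ 1 + d * c⁻¹ := by
  classical
  have hN : (G.neighborSet v).Finite := Set.toFinite _
  have h1 : Nat.card V ≤ 1 + ∑ w ∈ hN.toFinset, (Br G v w).ncard := by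
    rw [← Set.ncard_univ]
    refine (Set.ncard_le_ncard (cover_Br hconn v) (Set.toFinite _)).trans ?_
    refine (Set.ncard_union_le _ _).trans ?_
    rw [Set.ncard_singleton]
    gcongr
    have : (⋃ w ∈ G.neighborSet v, Br G v w) = ⋃ w ∈ hN.toFinset, Br G v w := by
      simp
    rw [this]
    exact Finset.set_ncard_biUnion_le _ _
  have h2 : ((∑ w ∈ hN.toFinset, (Br G v w).ncard : ℕ) : ℝ) ≤ d * c⁻¹ := by
    push_cast
    calc ∑ w ∈ hN.toFinset, ((Br G v w).ncard : ℝ)
        ≤ ∑ _w ∈ hN.toFinset, c⁻¹ := by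
          apply Finset.sum_le_sum
          intro w hw
          have := hs w (by simpa using hw)
          rw [← one_div, le_div_iff₀ hc0]
          linarith
      _ = hN.toFinset.card * c⁻¹ := by rw [Finset.sum_const, nsmul_eq_mul]
      _ ≤ d * c⁻¹ := by
          gcongr
          rw [← Set.ncard_eq_toFinset_card _ hN]
          exact hd v
  have h3 : (Nat.card V : ℝ) ≤ ((1 + ∑ w ∈ hN.toFinset, (Br G v w).ncard : ℕ) : ℝ) := by
    exact_mod_cast h1
  push_cast at h3 h2
  linarith

/-- A finite tree with bounded degrees and Cheeger constant at least `c` is small. -/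
theorem card_le_of_acyclic [Finite V] {G : SimpleGraph V} (hG : G.IsAcyclic)
    (hconn : G.Connected) {c : ℝ} (hc0 : 0 < c) (hc : CheegerAtLeast G c) {d : ℕ}
    (hd : ∀ v, (G.neighborSet v).ncard ≤ d) :
    (Nat.card V : ℝ) ≤ 1 + d * c⁻¹ := by
  classical
  -- a big branch leads to a vertex all of whose branches are small
  have key : ∀ n : ℕ, ∀ u v : V, G.Adj u v → (Br G u v).ncard = n → 1 < c * n →
      (Nat.card V : ℝ) ≤ 1 + d * c⁻¹ := by
    intro n
    induction n using Nat.strong_induction_on with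
    | _ n ih =>
      intro u v huv hn hbig
      by_cases hall : ∀ w, G.Adj v w → c * (Br G v w).ncard ≤ 1
      · exact card_le_of_all_small hconn hc0 hd v hall
      · push Not at hall
        obtain ⟨w, hvw, hw⟩ := hall
        have hwu : w ≠ u := by
          rintro rfl
          -- the branch towards `u` is in the complement of the big branch
          have hsm := Br_small hG hc huv
          have h1 : ¬ (2 * (Br G w v).ncard ≤ Nat.card V) := by
            intro h
            have := hsm.1 h
            rw [hn] at this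
            linarith
          have hadd := Set.ncard_add_ncard_compl (Br G w v)
          have h2 : 2 * (Br G w v)ᶜ.ncard ≤ Nat.card V := by omega
          have h3 := hsm.2 h2
          have h4 : (Br G v w).ncard ≤ (Br G w v)ᶜ.ncard := by
            apply Set.ncard_le_ncard _ (Set.toFinite _)
            intro x hx hx'
            exact Br_disjoint hG huv hx hx'
          have h5 : c * ((Br G v w).ncard : ℝ) ≤ c * ((Br G w v)ᶜ.ncard : ℝ) := by
            gcongr
          linarith
        have hss := Br_ssubset hG hvw hwu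
        have hlt : (Br G v w).ncard < n := by
          rw [← hn]
          exact Set.ncard_lt_ncard hss (Set.toFinite _)
        exact ih _ hlt v w hvw rfl hw
  obtain ⟨v⟩ := hconn.nonempty
  by_cases hall : ∀ w, G.Adj v w → c * (Br G v w).ncard ≤ 1
  · exact card_le_of_all_small hconn hc0 hd v hall
  · push Not at hall
    obtain ⟨w, hvw, hw⟩ := hall
    exact key _ v w hvw rfl hw

/-- Under the standing assumptions and bounded degrees, infinitely many (in fact all but finitely
many) of the graphs contain a cycle. -/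
theorem infinite_not_acyclic {V : ℕ → Type} [∀ n, Finite (V n)] {Ω : ∀ n, SimpleGraph (V n)}
    (h : Standing Ω) {d : ℕ} (hd : ∀ n v, ((Ω n).neighborSet v).ncard ≤ d) :
    {n | ¬ (Ω n).IsAcyclic}.Infinite := by
  obtain ⟨c, hc0, hc⟩ := h.cheeger
  have hev : ∀ᶠ n in atTop, ¬ (Ω n).IsAcyclic := by
    have h1 : Tendsto (fun n => (Nat.card (V n) : ℝ)) atTop atTop :=
      tendsto_natCast_atTop_atTop.comp h.card
    filter_upwards [h1.eventually_gt_atTop (1 + d * c⁻¹)] with n hn hac
    have := card_le_of_acyclic hac (h.connected n) hc0 (hc n) (hd n)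
    linarith
  exact Nat.frequently_atTop_iff_infinite.mp hev.frequently

end Pool.Agent.H862R3.Monster
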