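import Pool.Agent.H862R3.Monster.Core
import Pool.Agent.H862R3.Monster.Tree
import Pool.Agent.H862R3.Monster.Labels

set_option autoImplicit false

open MeasureTheory Filter

universe u

namespace Pool.Agent.H862R3.Monster

/-- Homomorphisms from a finitely generated group to a countable group are countably many. -/
lemma countable_hom (H : Type) [Group H] [Group.FG H] (G : Type u) [Group G] [Countable G] :
    Countable (H →* G) := by
  classical
  obtain ⟨S, hS⟩ := (Group.fg_def (G := H)).mp inferInstance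
  let f : (H →* G) → (S → G) := fun φ s => φ s
  refine Function.Injective.countable (f := f) ?_
  intro φ ψ h
  apply MonoidHom.eq_of_eqOn_dense hS
  intro s hs
  exact congrFun h ⟨s, hs⟩

variable {k : ℕ} {S : LabelSet (FreeGroup (Fin k))}
  {V : ℕ → Type} [∀ n, Finite (V n)] {Ω : ∀ n, SimpleGraph (V n)}

instance : Finite ℤˣ := inferInstance

instance (k : ℕ) : (Ev k).FiniteIndex := by
  unfold Ev
  infer_instance

instance (k : ℕ) : Group.FG (Ev k) := Subgroup.fg_of_index_ne_zero (Ev k)

/-- A homomorphism on a subgroup `H` of the free group containing all even words and killing all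
even words has finite image. -/
lemma finite_range_of_Ev {G : Type u} [Group G] (H : Subgroup (FreeGroup (Fin k)))
    (f : H → G) (hf : ∀ g g' : H, (g' : FreeGroup (Fin k)) * (g : FreeGroup (Fin k))⁻¹ ∈ Ev k →
      f g' = f g) : (Set.range f).Finite := by
  classical
  have : Set.range f ⊆ Set.range (fun e : ℤˣ =>
      if h : ∃ g : H, par k g = e then f h.choose else f 1) := by
    rintro _ ⟨g, rfl⟩
    have hex : ∃ g' : H, par k g' = par k g := ⟨g, rfl⟩
    refine ⟨par k g, ?_⟩
    simp only [hex, dif_pos]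
    apply hf
    rw [Ev, MonoidHom.mem_ker, map_mul, map_inv, hex.choose_spec]
    simp
  exact (Set.finite_range _).subset this

/-- The main theorem: hereditary super-rigidity with respect to every countable group. -/
theorem hereditary (hk : 2 ≤ k) (hΩ : {n | ¬ (Ω n).IsAcyclic}.Infinite) (hgood : Good k S)
    (hEv : ∀ s ∈ S.carrier, ∀ s' ∈ S.carrier, s' * s⁻¹ ∈ Ev k)
    (G : Type u) [Group G] [Countable G] : HereditarySuperRigid S Ω G := by
  classical
  have hTop : ∀ s ∈ S.carrier, ∀ s' ∈ S.carrier,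
      s' * s⁻¹ ∈ (⊤ : Subgroup (FreeGroup (Fin k))) := fun _ _ _ _ => Subgroup.mem_top _
  have hfgTop : Group.FG (⊤ : Subgroup (FreeGroup (Fin k))) := by
    rw [Group.fg_iff_subgroup_fg]
    exact Group.FG.out
  have c1 : ∀ m : ℕ, Countable ((⊤ : Subgroup (FreeGroup (Fin k))) →* Equiv.Perm (Fin m)) :=
    fun m => countable_hom _ _
  have c2 : Countable ((⊤ : Subgroup (FreeGroup (Fin k))) →* G) := countable_hom _ _
  have c3 : Countable (Ev k →* G) := countable_hom _ _
  have h1 : ∀ᵐ α ∂(labMeasure S Ω), ∀ m : ℕ,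
      ∀ ψ : (⊤ : Subgroup (FreeGroup (Fin k))) →* Equiv.Perm (Fin m),
      (∀ r ∈ relators α, ∃ h : r ∈ (⊤ : Subgroup (FreeGroup (Fin k))), ψ ⟨r, h⟩ = 1) →
      ∀ s s' : FreeGroup (Fin k), ∀ (hs : s ∈ S.carrier) (hs' : s' ∈ S.carrier),
        ψ ⟨s' * s⁻¹, hTop s hs s' hs'⟩ = 1 := by
    rw [ae_all_iff]
    intro m
    exact ae_hom hΩ _ _ hTop
  have h2 := ae_hom (S := S) hΩ ⊤ G hTop
  have h3 := ae_hom (S := S) hΩ (Ev k) G hEv
  unfold HereditarySuperRigid
  filter_upwards [h1, h2, h3] with α a1 a2 a3 Γ' hΓ' φ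
  set N : Subgroup (FreeGroup (Fin k)) := Subgroup.normalClosure (relators α) with hN
  set H : Subgroup (FreeGroup (Fin k)) := Γ'.comap (QuotientGroup.mk' N) with hH
  have hNH : N ≤ H := by
    intro n hn
    rw [hH, Subgroup.mem_comap]
    have : (QuotientGroup.mk' N) n = 1 := by
      rw [← MonoidHom.mem_ker, QuotientGroup.ker_mk']
      exact hn
    rw [this]
    exact Γ'.one_mem
  have hrelN : ∀ r ∈ relators α, r ∈ N := fun r hr => Subgroup.subset_normalClosure hr
  have hHfin : H.FiniteIndex := by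
    have hs : Function.Surjective (QuotientGroup.mk' N) := QuotientGroup.mk'_surjective N
    refine ⟨?_⟩
    rw [hH, Subgroup.index_comap_of_surjective _ hs]
    exact hΓ'.index_ne_zero
  -- the action on the cosets of `H`
  have hEH : Ev k ≤ H := by
    apply Ev_le_of_quot hk
    intro a ha a' ha'
    have : Finite (FreeGroup (Fin k) ⧸ H) := Subgroup.finite_quotient_of_finiteIndex
    obtain ⟨m, ⟨e⟩⟩ := Finite.exists_equiv_fin (FreeGroup (Fin k) ⧸ H)
    let ψ₀ : FreeGroup (Fin k) →* Equiv.Perm (FreeGroup (Fin k) ⧸ H) :=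
      MulAction.toPermHom _ _
    let ψ : (⊤ : Subgroup (FreeGroup (Fin k))) →* Equiv.Perm (Fin m) :=
      (e.permCongrHom.toMonoidHom.comp ψ₀).comp (Subgroup.subtype _)
    have hkill : ∀ r ∈ relators α, ∃ h : r ∈ (⊤ : Subgroup (FreeGroup (Fin k))),
        ψ ⟨r, h⟩ = 1 := by
      intro r hr
      refine ⟨Subgroup.mem_top _, ?_⟩
      have : ψ₀ r = 1 := by
        ext x
        induction x using QuotientGroup.induction_on with
        | H x =>
          change ((r * x : FreeGroup (Fin k)) : FreeGroup (Fin k) ⧸ H) = (x : _)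
          rw [QuotientGroup.eq]
          apply hNH
          have hn : N.Normal := Subgroup.normalClosure_normal
          have := hn.conj_mem _ (N.inv_mem (hrelN r hr)) x⁻¹
          simpa [mul_assoc] using this
      change e.permCongrHom (ψ₀ r) = 1
      rw [this, map_one]
    obtain ⟨s, hs, s', hs', hss⟩ := hgood.quot a ha a' ha'
    have := a1 m ψ hkill s s' hs hs'
    change e.permCongrHom (ψ₀ (s' * s⁻¹)) = 1 at this
    rw [hss, ← map_one e.permCongrHom] at this
    have h5 : ψ₀ (a' * a⁻¹) = 1 := e.permCongrHom.injective this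
    have h6 : ψ₀ (a' * a⁻¹) ((1 : FreeGroup (Fin k)) : FreeGroup (Fin k) ⧸ H)
        = ((1 : FreeGroup (Fin k)) : FreeGroup (Fin k) ⧸ H) := by rw [h5]; rfl
    change ((a' * a⁻¹ * 1 : FreeGroup (Fin k)) : FreeGroup (Fin k) ⧸ H) = _ at h6
    rw [mul_one, eq_comm, QuotientGroup.eq] at h6
    simpa using h6
  -- the homomorphism on `H`
  let π : H →* Γ' := ((QuotientGroup.mk' N).comp H.subtype).codRestrict Γ' (fun x => x.2)
  have hπ : Function.Surjective π := by
    rintro ⟨x, hx⟩
    obtain ⟨g, rfl⟩ := QuotientGroup.mk'_surjective N x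
    exact ⟨⟨g, hx⟩, rfl⟩
  let f : H →* G := φ.comp π
  have hfN : ∀ n (hn : n ∈ N), f ⟨n, hNH hn⟩ = 1 := by
    intro n hn
    change φ (π ⟨n, hNH hn⟩) = 1
    have : π ⟨n, hNH hn⟩ = 1 := by
      apply Subtype.ext
      change (QuotientGroup.mk' N) n = 1
      rw [← MonoidHom.mem_ker, QuotientGroup.ker_mk']
      exact hn
    rw [this, map_one]
  have hrange : Set.range φ = Set.range f := by
    ext y
    constructor
    · rintro ⟨x, rfl⟩
      obtain ⟨g, rfl⟩ := hπ x
      exact ⟨g, rfl⟩
    · rintro ⟨g, rfl⟩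
      exact ⟨π g, rfl⟩
  rw [hrange]
  -- `f` kills all words of even length
  have hfE : ∀ g (hg : g ∈ Ev k), f ⟨g, hEH hg⟩ = 1 := by
    let fE : Ev k →* G := f.comp (Subgroup.inclusion hEH)
    suffices hs : ∀ a ∈ T k, ∀ a' ∈ T k, ∀ h : a' * a⁻¹ ∈ Ev k, fE ⟨a' * a⁻¹, h⟩ = 1 by
      -- the kernel of `fE` contains all quotients
      have hle : Ev k ≤ (fE.ker).map (Ev k).subtype := by
        apply Ev_le_of_quot hk
        intro a ha a' ha'
        have hm : a' * a⁻¹ ∈ Ev k := by
          rw [Ev, MonoidHom.mem_ker, map_mul, map_inv, par_T ha, par_T ha']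
          simp
        exact ⟨⟨a' * a⁻¹, hm⟩, hs a ha a' ha' hm, rfl⟩
      intro g hg
      obtain ⟨x, hx, hxg⟩ := hle hg
      have hx' : x = ⟨g, hg⟩ := Subtype.ext hxg
      rw [hx'] at hx
      exact hx
    intro a ha a' ha' hm
    obtain ⟨s, hs, s', hs', hss⟩ := hgood.quot a ha a' ha'
    by_cases hcase : ∀ r ∈ relators α, r ∈ Ev k
    · have := a3 fE (fun r hr => ⟨hcase r hr, hfN r (hrelN r hr)⟩) s s' hs hs'
      have h7 : (⟨s' * s⁻¹, hEv s hs s' hs'⟩ : Ev k) = ⟨a' * a⁻¹, hm⟩ := Subtype.ext hss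
      rw [h7] at this
      exact this
    · -- then `H` is the whole group
      push Not at hcase
      obtain ⟨r, hr, hrE⟩ := hcase
      have hHtop : ∀ g, g ∈ H := by
        intro g
        by_cases hg : g ∈ Ev k
        · exact hEH hg
        · have h8 : g * r⁻¹ ∈ Ev k := by
            rw [Ev, MonoidHom.mem_ker] at hg hrE ⊢
            rw [map_mul, map_inv]
            rcases Int.units_eq_one_or (par k g) with h | h
            · exact absurd h hg
            · rcases Int.units_eq_one_or (par k r) with h' | h'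
              · exact absurd h' hrE
              · rw [h, h']; decide
          have := H.mul_mem (hEH h8) (hNH (hrelN r hr))
          simpa using this
      let ft : (⊤ : Subgroup (FreeGroup (Fin k))) →* G :=
        f.comp (Subgroup.inclusion (fun g _ => hHtop g))
      have := a2 ft (fun r hr => ⟨Subgroup.mem_top _, hfN r (hrelN r hr)⟩) s s' hs hs'
      have h7 : (⟨s' * s⁻¹, hTop s hs s' hs'⟩ : (⊤ : Subgroup (FreeGroup (Fin k))))
          = ⟨a' * a⁻¹, Subgroup.mem_top _⟩ := Subtype.ext hss
      rw [h7] at this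
      exact this
  apply finite_range_of_Ev H f
  intro g g' hgg
  have h9 : f (g' * g⁻¹) = 1 := by
    have := hfE _ hgg
    exact this
  rw [map_mul, map_inv, mul_inv_eq_one] at h9
  exact h9

/-- Hereditary super-rigidity implies super-rigidity. -/
theorem superRigid_of_hereditary {F : Type} [Group F] {S : LabelSet F} (G : Type u) [Group G]
    (h : HereditarySuperRigid S Ω G) : SuperRigid S Ω G := by
  unfold HereditarySuperRigid at h
  unfold SuperRigid
  filter_upwards [h] with α hα φ
  have h1 := hα ⊤ inferInstance (φ.comp (Subgroup.subtype _))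
  refine h1.subset ?_
  rintro _ ⟨x, rfl⟩
  exact ⟨⟨x, Subgroup.mem_top _⟩, rfl⟩

theorem family_of_superRigid {F : Type} [Group F] {S : LabelSet F} (G : Type u) [Group G]
    (h : SuperRigid S Ω G) : SuperRigidFamily S Ω G := by
  intro φ
  unfold SuperRigid at h
  filter_upwards [h] with α hα
  exact hα _

end Pool.Agent.H862R3.Monster
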