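import Pool.Agent.H862R3.Monster.Final

set_option autoImplicit false

universe u

namespace Pool.Agent.H862R3.Monster

/-- The element of `G` represented by a word over the set `A ⊆ G`. -/
def ev {G : Type u} [Group G] {A : Set G} (w : List A) : G := (w.map Subtype.val).prod

/-- The word distance of `x` and `y` with respect to the symmetric set `A` is at most `K`:
`x⁻¹ y` is a product of at most `K` elements of `A`. -/
def DistLE {G : Type u} [Group G] (A : Set G) (K : ℕ) (x y : G) : Prop :=
  ∃ w : List A, w.length ≤ K ∧ x * ev w = y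

/-- Biautomatic groups: there are a finite symmetric generating set `A`, a regular language `L`
over `A` mapping onto `G`, and `K` such that for all `u, v ∈ L` and `a, b ∈ A ∪ {1}` with
`ū a = b v̄` the paths `u` and `b v` stay at word distance at most `K` at all times. -/
def IsBiautomatic (G : Type u) [Group G] : Prop :=
  ∃ A : Set G, A.Finite ∧ (∀ a ∈ A, a⁻¹ ∈ A) ∧ Subgroup.closure A = ⊤ ∧
    ∃ L : Language A, L.IsRegular ∧ (∀ g : G, ∃ w ∈ L, ev w = g) ∧
      ∃ K : ℕ, ∀ u ∈ L, ∀ v ∈ L, ∀ a b : G, (a ∈ A ∨ a = 1) → (b ∈ A ∨ b = 1) →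
        ev u * a = b * ev v → ∀ t : ℕ, DistLE A K (ev (u.take t)) (b * ev (v.take t))

lemma countable_of_closure {G : Type u} [Group G] {A : Set G} (hA : A.Finite)
    (h : Subgroup.closure A = ⊤) : Countable G := by
  have hfg : Group.FG G := by
    rw [Group.fg_def]
    exact ⟨hA.toFinset, by simpa using h⟩
  obtain ⟨S, hS, φ, hφ⟩ := Group.fg_iff_exists_freeGroup_hom_surjective.mp hfg
  have : Countable S := hS.countable
  exact hφ.countable

lemma IsBiautomatic.countable {G : Type u} [Group G] (h : IsBiautomatic G) : Countable G := by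
  obtain ⟨A, hA, -, hcl, -⟩ := h
  exact countable_of_closure hA hcl

/-- The relators `[u, v]`, one for each edge `uv` of `Λ`. -/
def raagRels {W : Type} (Λ : SimpleGraph W) : Set (FreeGroup W) :=
  {r | ∃ u v : W, Λ.Adj u v ∧
    r = FreeGroup.of u * FreeGroup.of v * (FreeGroup.of u)⁻¹ * (FreeGroup.of v)⁻¹}

/-- The right-angled Artin group `A_Λ`: generators the vertices of `Λ`, relations `uv = vu` for
the edges `uv` of `Λ`. -/
abbrev RAAG {W : Type} (Λ : SimpleGraph W) : Type := PresentedGroup (raagRels Λ)

/-- The inner automorphisms form a normal subgroup of the automorphism group. -/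
instance inner_normal (A : Type u) [Group A] : (MulAut.conj (G := A)).range.Normal := by
  refine ⟨?_⟩
  rintro _ ⟨g, rfl⟩ θ
  refine ⟨θ g, ?_⟩
  ext x
  simp [MulAut.conj_apply]

/-- The outer automorphism group `Out(A) = Aut(A) / Inn(A)`. -/
abbrev Outer (A : Type u) [Group A] : Type u := MulAut A ⧸ (MulAut.conj (G := A)).range

lemma countable_outer (A : Type) [Group A] [Group.FG A] [Countable A] : Countable (Outer A) := by
  have h1 : Countable (A →* A) := countable_hom A A
  have h2 : Countable (MulAut A) := by
    let f : MulAut A → (A →* A) := fun θ => θ.toMonoidHom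
    refine Function.Injective.countable (f := f) ?_
    intro θ θ' h
    ext x
    exact DFunLike.congr_fun h x
  exact (QuotientGroup.mk'_surjective (MulAut.conj (G := A)).range).countable

instance countable_raag {W : Type} [Finite W] (Λ : SimpleGraph W) : Countable (RAAG Λ) :=
  (QuotientGroup.mk'_surjective (Subgroup.normalClosure (raagRels Λ))).countable

instance fg_raag {W : Type} [Finite W] (Λ : SimpleGraph W) : Group.FG (RAAG Λ) :=
  Group.fg_of_surjective (f := QuotientGroup.mk' (Subgroup.normalClosure (raagRels Λ)))
    (QuotientGroup.mk'_surjective _)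

end Pool.Agent.H862R3.Monster
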